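import Pool.Agent.Y605.HC.Main

/-!
# Hamiltonian Cycle is NP-complete on subcubic graphs without `H_j` for many `j` simultaneously

For every finite set `J` of integers the Hamiltonian graphs (of maximum degree at most 3) without
subgraphs `H_j`, `j ∈ J`, form a language in `NP`.  For all numbers `b, k` and `c, r ≥ 2` every
language in `NP` is reduced in polynomial time to the Hamiltonian cycle problem by a function all
of whose values are graphs of maximum degree at most 3 without any subgraph `H_j` with `6 ≤ j` and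
`j ≤ b`, or `j ≤ n ^ (k / (k + 1))` (`n` the number of vertices), or `j` of the form `c ^ (r ^ i)`.
-/

namespace Pool.Agent.Results.MP_2e8011_lc.FiniteAndInfiniteSets

open Pool.Agent.NPC Pool.Agent.H679R2 Pool.Agent.NPC.H679 Pool.Agent.Y605.HC
  Pool.Agent.NPC.Y605HC

/-- NP-completeness of the Hamiltonian cycle problem on graphs of maximum degree at most 3 that are
`H_j`-subgraph-free for all members `j ≥ 6` of a finite set, or of the infinite set
`{c ^ (r ^ i)}`, or below `n ^ (k / (k + 1))`, simultaneously. -/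
theorem result :
    (∀ J : Finset ℕ,
      InNP (lang (fun I : List ℕ × List (ℕ × ℕ) =>
        (∀ j ∈ J, (Hj j).Free (toGraph I)) ∧ HasHamCycle I)) ∧
      InNP (lang (fun I : List ℕ × List (ℕ × ℕ) =>
        (MaxDegreeLeThree (toGraph I) ∧ ∀ j ∈ J, (Hj j).Free (toGraph I)) ∧ HasHamCycle I))) ∧
    ∀ b k c r : ℕ, 2 ≤ c → 2 ≤ r →
      ∀ L : Set (List Bool), InNP L → ∃ f : List Bool → List Bool, PolyTime f ∧
        ∀ x, ∃ I : List ℕ × List (ℕ × ℕ), f x = bits I ∧
          MaxDegreeLeThree (toGraph I) ∧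
          (∀ j, 6 ≤ j → (j ≤ b ∨ j ^ (k + 1) ≤ Nat.card {v : ℕ // v ∈ I.1} ^ k ∨
            ∃ i, j = c ^ (r ^ i)) → (Hj j).Free (toGraph I)) ∧
          (x ∈ L ↔ HasHamCycle I) := by
  refine ⟨fun J => ⟨?_, ?_⟩, ?_⟩
  · obtain ⟨d, hd, hP⟩ := free_decidable_all J
    exact inNP_ham hd hP
  · obtain ⟨d, hd, hP⟩ := class_decidable J
    exact inNP_ham hd hP
  · intro b k c r hc hr L hL
    obtain ⟨f, hf, hcl, h⟩ := hardPr_all b k c r hc hr L hL
    exact ⟨fun x => bits (f x), PC.toPolyTime hf, fun x => ⟨f x, rfl, (hcl x).1, (hcl x).2, h x⟩⟩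

end Pool.Agent.Results.MP_2e8011_lc.FiniteAndInfiniteSets
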